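import Pool.Agent.Lib.MP_229293_co.Lower

/-!
# The star b-chromatic number of trees: radius at most two, and a lower bound for all trees
-/

set_option autoImplicit false

namespace Pool.Agent.Results.MP_229293_co.RadiusTwo

open Pool.Agent.Lib.MP_229293_co

/-- For a vertex `r` of a finite tree `T` let `d` be the number of the neighbours of `r` which are
not leaves, and `ε = 1` if some neighbour of `r` is a leaf, `ε = 0` otherwise. Then
`S_b(T) ≥ 1 + d + ε`, with equality if every vertex of `T` has distance at most two from `r`; and
`S_b(T)` is a genuine maximum. -/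
theorem result {V : Type*} [Finite V] (T : SimpleGraph V) (hT : T.IsTree) (r : V) :
    1 + innerDegree T r + leafBit T r ≤ starB T ∧
      ((∀ v, T.dist r v ≤ 2) → starB T = 1 + innerDegree T r + leafBit T r) ∧
      IsGreatest (minimalSizes T) (starB T) := by
  have hbdd : BddAbove (minimalSizes T) := by
    refine ⟨Nat.card V, ?_⟩
    rintro k ⟨c, hc, -, -⟩
    simpa using Nat.card_le_card_of_surjective c hc
  obtain ⟨k, hk, hk1, hk2⟩ := exists_minimal (V := V) hT.isAcyclic
  have h1 : 1 + innerDegree T r + leafBit T r ≤ starB T := by
    rcases Nat.lt_or_ge (1 + innerDegree T r + leafBit T r) 3 with h | h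
    · refine le_trans ?_ (le_csSup hbdd hk)
      rcases Nat.lt_or_ge (1 + innerDegree T r + leafBit T r) 2 with h' | h'
      · have := hk1 ⟨r⟩
        omega
      · have hex : ∃ w, T.Adj r w := by
          by_contra hcon
          push Not at hcon
          have e1 : innerDegree T r = 0 := by
            unfold innerDegree
            rw [Set.ncard_eq_zero (Set.toFinite _)]
            ext w
            simp [hcon w]
          have e2 : leafBit T r = 0 := if_neg (by
            rintro ⟨w, hw, -⟩
            exact hcon w hw)
          omega
        obtain ⟨w, hw⟩ := hex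
        have := hk2 ⟨r, w, hw⟩
        omega
    · exact le_csSup hbdd (lower hT r h)
  refine ⟨h1, fun hr => le_antisymm ?_ h1, Nat.sSup_mem ⟨k, hk⟩ hbdd, fun m hm => le_csSup hbdd hm⟩
  refine csSup_le ⟨k, hk⟩ ?_
  rintro m ⟨c, hc, hs, hmin⟩
  exact upper hT r hr c hs hmin hc

end Pool.Agent.Results.MP_229293_co.RadiusTwo
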